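import Mathlib
import Pool.Agent.H692.FL.Equation
import Pool.Agent.H692.FL.Pull

/-!
# Membership in a threefold sumset and linear decision trees with five terms

The model is the linear decision tree: a query computes an affine form `∑ i, q i * x i + r` in the
input numbers and the tree branches according to its sign (negative, zero, positive).  The tree may
depend on the sizes of the sets and on the target (it is non-uniform), everything but the queries is
free.

We show that membership in `A + B + C` is not decided with a linear number of queries with at most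
five terms, not even with `n polylog n` queries and not even if the three sets are given sorted: for
three lists of `n` integers and every target `z`, every randomised family of trees whose queries
have at most four terms with arbitrary real coefficients or at most five terms with integer
coefficients of absolute value at most `exp (c * √(log n))`, and which has error at most `1/3`, needs
`n * exp (c * √(log n))` queries in expectation on some lists with `z ∉ A + B + C`, which even
satisfy `B = C` and `A = B + z` (so `A = B = C` for `z = 0`).

For comparison: membership in `A + B` is decided for sorted lists by `2 n` queries with two terms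
(walk through the two lists), and membership in `A + B + C` by `O(n²)` queries with three terms, by
`n^(3/2)` (up to a logarithmic factor) queries with four terms (Grønlund and Pettie), and by
`O(n log² n)` queries with six terms with the coefficients `1` and `-1` (Kane, Lovett and Moran); so
five terms are not enough for the last bound.

Definitions (file `Pool.Agent.H692.FL.Model`): `Tree ι`, `Tree.run`, `Tree.cost`: linear decision
trees on the inputs `x : ι → ℝ`, the answer and the number of queries on an input; `Adm H q`: at most
four of the coefficients `q i` are not zero, or at most five, and then all coefficients are integers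
of absolute value at most `H`; `Tree.FiveTerm H`: the coefficients of all queries are admissible in
this sense.

## Proof idea

A tree for three lists gives a tree for one list `x` (`A = x + z`, `B = C = x`) and the equation
`x i + x j + x k = 0`.  For this equation the lower bound is shown by a complex whose edges are the
numbers and whose triangles are the candidates for a solution, such that the only forms with at most
five terms that do not have a large value on the hard input are the multiples of the weight of one
triangle, the combinations of the weights of two triangles with a common edge, and the multiples of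
`V t - V t' + V t''` for chains `t`, `t'`, `t''` of such triangles; every edge has many triangles,
but there are nearly no short closed galleries of triangles, so every triangle can be made a
solution without changing the sign of the forms for other triangles, if the coefficients are small
integers.
-/

namespace Pool.Agent.Results.MP_a4b548_lc.FiveTermTrees

open Pool.Agent.H692.FL

/-- `z` is in the sum of the three lists `L 0`, `L 1`, `L 2` -/
def InSum {n : ℕ} (L : Fin 3 → Fin n → ℤ) (z : ℤ) : Prop :=
  ∃ i j k : Fin n, L 0 i + L 1 j + L 2 k = z

open Classical in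
/-- There are a constant `c > 0` and an `n₀` such that for all `n ≥ n₀` and all integers `z`: every
randomised linear decision tree (a finite probability space of trees) on three strictly increasing
lists of `n` integers whose queries have at most four non-zero coefficients, or at most five and
then integers of absolute value at most `exp (c * √(log n))`, and which decides with probability at
least `2 / 3` on all such lists whether `z` is in the sum `A + B + C` of the three lists, makes at
least `n * exp (c * √(log n))` queries in expectation on some such lists with `z ∉ A + B + C`, and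
moreover `B = C`, `A = B + z`. -/
theorem result : ∃ c : ℝ, 0 < c ∧ ∃ n₀ : ℕ, ∀ n ≥ n₀, ∀ z : ℤ,
    ∀ (Ω : Type) [Fintype Ω] (p : Ω → ℝ) (t : Ω → Pool.Agent.H692.FL.Tree (Fin 3 × Fin n)),
    (∀ ω, 0 ≤ p ω) → ∑ ω, p ω = 1 → (∀ ω, (t ω).FiveTerm (Real.exp (c * √(Real.log n)))) →
    (∀ L : Fin 3 → Fin n → ℤ, (∀ c, StrictMono (L c)) → 2 / 3 ≤ ∑ ω, p ω *
      (if ((t ω).run (fun k => (L k.1 k.2 : ℝ)) = true ↔ InSum L z) then 1 else 0)) →
    ∃ L : Fin 3 → Fin n → ℤ, (∀ c, StrictMono (L c)) ∧ ¬ InSum L z ∧
      (∀ i, L 2 i = L 1 i ∧ L 0 i = L 1 i + z) ∧
      n * Real.exp (c * √(Real.log n)) ≤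
        ∑ ω, p ω * ((t ω).cost (fun k => (L k.1 k.2 : ℝ)) : ℝ) := by
  obtain ⟨n₀, h₀⟩ := equation
  refine ⟨1 / 400, by norm_num, n₀, fun n hn z Ω _ p t hp hp1 hs hcor => ?_⟩
  have hc : 1 / 400 * √(Real.log n) = √(Real.log n) / 400 := by ring
  rw [hc] at hs ⊢
  have hpos := Real.exp_pos (√(Real.log n) / 400)
  obtain ⟨Λ, hΛ⟩ : ∃ Λ : (Fin n → ℤ) → Fin 3 → Fin n → ℤ, ∀ x c i,
      Λ x c i = x i + if c = 0 then z else 0 := ⟨_, fun _ _ _ => rfl⟩
  have hmono : ∀ x : Fin n → ℤ, StrictMono x → ∀ c, StrictMono (Λ x c) := by
    intro x hx c i j hij
    rw [hΛ, hΛ]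
    exact add_lt_add_left (hx hij) _
  have hin : ∀ x : Fin n → ℤ, InSum (Λ x) z ↔ ∃ i j k : Fin n, x i + x j + x k = 0 := by
    intro x
    have z1 : (1 : Fin 3) ≠ 0 := by decide
    have z2 : (2 : Fin 3) ≠ 0 := by decide
    refine exists_congr fun i => exists_congr fun j => exists_congr fun k => ?_
    rw [hΛ, hΛ, hΛ, if_pos rfl, if_neg z1, if_neg z2]
    constructor <;> intro h <;> linarith
  obtain ⟨f, hf⟩ : ∃ f : Fin 3 × Fin n → Fin n, ∀ k, f k = k.2 := ⟨_, fun _ => rfl⟩
  obtain ⟨v, hv⟩ : ∃ v : Fin 3 × Fin n → ℝ, ∀ k, v k = if k.1 = 0 then (z : ℝ) else 0 :=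
    ⟨_, fun _ => rfl⟩
  have hinp : ∀ x : Fin n → ℤ, (fun k : Fin 3 × Fin n => ((x (f k) : ℤ) : ℝ) + v k) =
      fun k => (Λ x k.1 k.2 : ℝ) := by
    intro x
    funext k
    rw [hΛ, hf, hv]
    by_cases h : k.1 = 0
    · rw [if_pos h, if_pos h]
      push_cast
      rfl
    · rw [if_neg h, if_neg h]
      push_cast
      rfl
  obtain ⟨α, hα⟩ : ∃ α : ZMod 3 → ℤ, ∀ c, α c = 1 := ⟨_, fun _ => rfl⟩
  have hW : ∀ x : Fin n → ℤ, SolW α x ↔ ∃ i j k : Fin n, x i + x j + x k = 0 := by
    intro x
    rw [SolW, hα, hα, hα]
    refine exists_congr fun i => exists_congr fun j => exists_congr fun k => ?_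
    rw [one_mul, one_mul, one_mul]
    refine ⟨fun h => h.2, fun h => ⟨fun h' => ?_, h⟩⟩
    exact absurd h'.2.2 (by norm_num)
  have hDW : ∀ x : Fin n → ℤ, SolD α x → SolW α x := by
    rintro x ⟨i, j, k, h1, h2, h3, h⟩
    exact ⟨i, j, k, fun h' => h1 h'.1, h⟩
  obtain ⟨x, hx1, hx2, hx3⟩ := h₀ n hn α (fun c => by rw [hα]; norm_num) 1
    (5 * Real.exp (√(Real.log n) / 400)) (fun c => by rw [hα]; norm_num) (by linarith) Ω p
    (fun ω => (t ω).pull f v) hp hp1 (fun ω => Tree.fiveTerm_pull f v hpos.le (hs ω))
    (fun x hx hpr => by
    refine (hcor (Λ x) (hmono x hx)).trans (le_of_eq (Finset.sum_congr rfl fun ω _ => ?_))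
    congr 1
    refine if_congr ?_ rfl rfl
    rw [Tree.run_pull, hinp, hin, ← hW]
    have : SolW α x ↔ SolD α x := by
      rcases hpr with h | h
      · exact ⟨fun _ => h, fun _ => hDW x h⟩
      · exact ⟨fun h' => absurd h' h, hDW x⟩
    rw [this])
  refine ⟨Λ x, hmono x hx1, fun h => hx2 ((hW x).2 ((hin x).1 h)), fun i => ?_, ?_⟩
  · have z1 : (1 : Fin 3) ≠ 0 := by decide
    have z2 : (2 : Fin 3) ≠ 0 := by decide
    rw [hΛ, hΛ, hΛ, if_pos rfl, if_neg z1, if_neg z2, add_zero]
    exact ⟨rfl, rfl⟩
  · refine hx3.trans (le_of_eq (Finset.sum_congr rfl fun ω _ => ?_))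
    rw [Tree.cost_pull, hinp]

end Pool.Agent.Results.MP_a4b548_lc.FiveTermTrees
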