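import Mathlib
import Pool.Agent.H692.RB.Shift

/-!
# Membership in a threefold sumset: randomized decision trees with few rounds

Three lists `A`, `B`, `C` of `n` different real numbers each and a number `x` are given. Is `x` in
`A + B + C`? How many tests does a randomized algorithm need to find out, if the tests are made in `r`
rounds? (The tests of one round are made simultaneously, so they may depend on the outcomes of the
previous rounds, but not on each other.)

The definitions of the trees are in `Pool/Agent/H692/KS/Model.lean`, for a continuous family `pot` of
special inputs with parameters in a space `P`: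

* `Shallow pot f`: the function `f` of the input (with values in the integers) is locally constant
  near `pot y` for a dense set of parameters `y`;
* `Regular pot f`: the real function `f` of the input is, for generic (a comeagre set of) parameters
  `y`, differentiable at `pot y`, with a value or a derivative which is not zero;
* `RTree pot β`: decision trees with outputs in `β`; a node asks for the value of a shallow function
  (`free`), or it is a `round`, which asks at the same time for the signs (negative, zero, positive)
  of any number of regular functions (tests). The trees may be infinite, but all branches are finite;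
* `run`, `rounds`, `tests`: the output and the numbers of the rounds and of the tests (of all rounds
  together) on the path of the computation. Nodes `free` are not counted, and there may be any number
  of them.

A randomized tree is a finite family `t ρ` of trees with probabilities `p ρ`; `prob p Q` is the
probability of `Q` (`Pool/Agent/H692/RT/Main.lean`). The input is a function
`w : Fin 3 × Fin n → ℝ`: the numbers `w (0, i)`, `w (1, j)` and `w (2, k)` are the elements of `A`, `B`
and `C`. The special inputs `potX x y` (see `RB/Shift.lean` and `KS/Final.lean`) are those for which
`A`, `B` and `C` are constant lists `a`, `b`, `c` with `a + b + c = x`. In `RB/Shift.lean`: `SolvesX`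
(the randomized tree finds out whether `x` is in `A + B + C`, if it has at most one representation),
and in `RB/Final.lean`: `Bound`.

All analytic functions which are not zero of the second order for all the special inputs are regular
(part 3), for example all affine functions of the elements except zero. Free are for example the
comparisons of elements of different lists and all binary digits of the elements.

Result: a randomized tree with at most `r` rounds which gives the correct answer with probability
`(1 + γ) / 2` makes for some lists for which `x` is not in `A + B + C` on average at least `T` tests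
with `87 (6 T) ^ r ≥ (γ n) ^ (r + 2)`. So `T ≥ c n ^ (1 + 2 / r)`, where `c > 0` depends only on `γ`.
With a linear number `C n` of tests one needs at least
`(2 log n - log (87 / γ ^ 2)) / log (6 C / γ)` rounds (part 2). Without a bound for the number of
rounds `O (n (log n) ^ 2)` linear tests suffice (Kane, Lovett and Moran).

Proof. See `Pool/Agent/Results/MP_8f87b2_lc/RandomFewRounds.lean`; the tests for `A`, `B`, `C` are tests
for `A - x`, `B`, `C`.
-/

set_option autoImplicit false

namespace Pool.Agent.Results.MP_a4b548_lc.RandomFewRounds

open Pool.Agent.H692.KS
open Pool.Agent.H692.RB (Bound potX SolvesX)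

/-- 1. Let `t ρ` be decision trees with at most `r ≥ 1` rounds, where `ρ` has the probability `p ρ`,
which find out with probability `(1 + γ) / 2` whether `x` is in `A + B + C`, if it has at most one
representation, with at most `T` tests on average if it has none (`SolvesX`). Then the inequalities
`Bound 2 γ r n T` hold.
2. The consequence for `T ≤ C n`.
3. An analytic function is regular if for some special input its value or its derivative is not
zero. -/
theorem result :
    (∀ r n : ℕ, 1 ≤ r → 1 ≤ n → ∀ (x : ℝ) (Ω : Type) [Fintype Ω] (p : Ω → ℝ)
      (t : Ω → RTree (potX x : (Fin 3 → ℝ) → Fin 3 × Fin n → ℝ) Bool) (γ T : ℝ), 0 < γ →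
      SolvesX x p t γ T r → Bound 2 γ r n T) ∧
    (∀ r n : ℕ, 1 ≤ r → 1 ≤ n → ∀ (x : ℝ) (Ω : Type) [Fintype Ω] (p : Ω → ℝ)
      (t : Ω → RTree (potX x : (Fin 3 → ℝ) → Fin 3 × Fin n → ℝ) Bool) (γ T C : ℝ), 0 < γ →
      0 ≤ T → T ≤ C * n → SolvesX x p t γ T r →
      γ ^ (r + 2) * (n : ℝ) ^ 2 ≤ 87 * (6 * C) ^ r) ∧
    (∀ (n : ℕ) (x : ℝ) (f : (Fin 3 × Fin n → ℝ) → ℝ), AnalyticOnNhd ℝ f Set.univ →
      (∃ y, f (potX x y) ≠ 0 ∨ fderiv ℝ f (potX x y) ≠ 0) → Regular (potX x) f) := by
  refine ⟨?_, ?_, ?_⟩
  · intro r n hr hn x Ω _ p t γ T hγ h
    exact Pool.Agent.H692.RB.solves_x hγ hr hn h
  · intro r n hr hn x Ω _ p t γ T C hγ hT0 hT h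
    exact Pool.Agent.H692.RB.linear_tests hn (Pool.Agent.H692.RB.solves_x hγ hr hn h) hT0 hT
  · intro n x f hf h
    have h1 : AnalyticOnNhd ℝ (potX x : (Fin 3 → ℝ) → Fin 3 × Fin n → ℝ) Set.univ := by
      have h2 := pot_analytic (K := 2) (n := n) Pool.Agent.H692.RT.c111
      exact h2.add analyticOnNhd_const
    exact regular_analytic h1 hf h

end Pool.Agent.Results.MP_a4b548_lc.RandomFewRounds
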